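import Pool.Agent.J4.H99.QF.Main
import Pool.Agent.J4.H99.QF.Model

/-!
# MP_fa0058_gt: the Fadell-Neuwirth sequence for orbifolds

For all `k, l ≥ 1` and `n ≥ 1` the map `PB_(n+1)(M) → PB_n(M)` for the connected orbifold
`M = (ℝ ^ k / ±1) × ℝ ^ l` is not a quasifibration.
-/

set_option autoImplicit false

open Topology Topology.Homotopy unitInterval

namespace Pool.Agent.Results.MP_fa0058_gt.NotQuasifibration

open Pool.Agent.J4.H99.QF

/-- There is a model `S` of the universal space `E ℤˣ`, and for all `k, l, n ≥ 1` and all such models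
the map `PB_(n+1)(M) → PB_n(M)`, `M = (ℝ ^ k / ±1) × ℝ ^ l`, is not a quasifibration. -/
theorem result :
    (∃ (S : Type) (_ : TopologicalSpace S) (_ : MulAction ℤˣ S), IsUniversal ℤˣ S) ∧
    ∀ (k l n : ℕ), 1 ≤ k → 1 ≤ l → 1 ≤ n →
      ∀ (S : Type) [TopologicalSpace S] [MulAction ℤˣ S], IsUniversal ℤˣ S →
        ¬ IsQuasifibration ℤˣ (Mir (EuclideanSpace ℝ (Fin k)) (EuclideanSpace ℝ (Fin l))) S n := by
  refine ⟨⟨SInf, inferInstance, inferInstance, isUniversal_SInf⟩, ?_⟩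
  intro k l n hk hl hn S _ _ hS hQ
  obtain ⟨k, rfl⟩ := Nat.exists_eq_add_of_le' hk
  obtain ⟨l, rfl⟩ := Nat.exists_eq_add_of_le' hl
  obtain ⟨n, rfl⟩ := Nat.exists_eq_add_of_le' hn
  let φ : EuclideanSpace ℝ (Fin (l + 1)) ≃L[ℝ] ℝ × EuclideanSpace ℝ (Fin l) :=
    ContinuousLinearEquiv.ofFinrankEq (by simp [add_comm])
  obtain ⟨y, v, hy, hne⟩ := main (A := EuclideanSpace ℝ (Fin (k + 1))) φ (2 * k + l)
    (by simp; ring) (by simp) n S hS.2
  have := hS.1
  obtain ⟨t⟩ : Nonempty S := inferInstance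
  exact hne (fun _ => t) t (hQ y v (fun _ => t) t hy)

end Pool.Agent.Results.MP_fa0058_gt.NotQuasifibration
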